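import Pool.Agent.helper37.ND.Spec
import Pool.Agent.helper13.DI.B10

set_option autoImplicit false

namespace Pool.Agent.ND

open Pool.Agent.helper58.DC Pool.Agent.DI Pool.Agent.GR Pool.Agent.OB Pool.Agent.DR Pool.Agent.FI Pool.Agent.FI3 Pool.Agent.FI4 Pool.Agent.FI4I Pool.Agent.LE Pool.Agent.L5 Pool.Agent.NAB

theorem GCL_cyc (p : ℕ) (hp : p.Prime) {G : Type} [Group G] [Finite G] (E : Subgroup G) (hE : Nat.card E = p) :
    CycQ ((cz E).subgroupOf (nz E)) := by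
  have hpf : Fact p.Prime := ⟨hp⟩
  have hcE : IsCyclic E := isCyclic_of_prime_card hE
  have h1 : IsCyclic (MulAut E) := by
    have h2 : IsCyclic (ZMod (Nat.card E))ˣ := by
      rw [hE]
      infer_instance
    exact isCyclic_of_injective (IsCyclic.mulAutMulEquiv E).toMonoidHom (IsCyclic.mulAutMulEquiv E).injective
  have hker : E.normalizerMonoidHom.ker = (cz E).subgroupOf (nz E) := E.normalizerMonoidHom_ker
  rw [← hker]
  refine ⟨inferInstance, ?_⟩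
  have h3 : IsCyclic E.normalizerMonoidHom.range := inferInstance
  obtain ⟨⟨g, s, hs⟩, hg⟩ := h3.exists_generator
  refine ⟨s, fun x => ?_⟩
  obtain ⟨k, hk⟩ := Subgroup.mem_zpowers_iff.1 (hg ⟨E.normalizerMonoidHom x, x, rfl⟩)
  refine ⟨-k, ?_⟩
  have hk2 : g ^ k = E.normalizerMonoidHom x := congrArg Subtype.val hk
  rw [MonoidHom.mem_ker, map_mul, map_zpow, hs, ← hk2, zpow_neg, inv_mul_cancel]

theorem GCL_nor {G : Type} [Group G] (E : Subgroup G) : cz E ≤ nz E ∧ nz E ≤ nz (cz E) := by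
  constructor
  · exact Subgroup.centralizer_le_normalizer _
  · intro n hn
    rw [Subgroup.mem_normalizer_iff] at hn ⊢
    have key : ∀ m : G, (∀ h, h ∈ E ↔ m * h * m⁻¹ ∈ E) → ∀ c, c ∈ cz E → m * c * m⁻¹ ∈ cz E := by
      intro m hm c hc
      rw [Subgroup.mem_centralizer_iff] at hc ⊢
      intro e he
      have h1 : m⁻¹ * e * m ∈ E := by
        rw [hm]
        have : m * (m⁻¹ * e * m) * m⁻¹ = e := by group
        rw [this]
        exact he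
      have h2 := hc _ h1
      have h3 : e * (m * c * m⁻¹) = m * (m⁻¹ * e * m * c) * m⁻¹ := by group
      have h4 : m * c * m⁻¹ * e = m * (c * (m⁻¹ * e * m)) * m⁻¹ := by group
      rw [h3, h4, h2]
    intro c
    refine ⟨key n hn c, fun hc => ?_⟩
    have hn' : ∀ h, h ∈ E ↔ n⁻¹ * h * n⁻¹⁻¹ ∈ E := by
      intro h
      rw [hn (n⁻¹ * h * n⁻¹⁻¹)]
      have : n * (n⁻¹ * h * n⁻¹⁻¹) * n⁻¹ = h := by group
      rw [this]
    have h5 := key n⁻¹ hn' _ hc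
    have h6 : n⁻¹ * (n * c * n⁻¹) * n⁻¹⁻¹ = c := by group
    rwa [h6] at h5

open Classical in
theorem GCL_mt (hB2 : B2_stmt) {G : Type} [Group G] [Finite G] (K : Subgroup G) (η ξ : G → ℂ) (hξ : ξ ∈ IrrOn K) (c : (G → ℂ) → ℂ)
    (h : ∀ x ∈ K, η x = ∑ᶠ θ ∈ IrrOn K, c θ * θ x) : mt K η ξ = c ξ := by
  cases nonempty_fintype G
  obtain ⟨hfin, hB⟩ := hB2 G K
  have hcK : (Nat.card K : ℂ) ≠ 0 := by exact_mod_cast Nat.card_pos.ne'
  have h1 : ∑ᶠ x ∈ (K : Set G), η x * ξ x⁻¹ = ∑ x : G, ∑ θ ∈ hfin.toFinset, c θ * (θ x * ξ x⁻¹) := by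
    rw [finsum_mem_eq_finite_toFinset_sum _ (Set.toFinite _)]
    rw [← Finset.sum_subset (Finset.subset_univ (Set.toFinite (K : Set G)).toFinset)]
    · refine Finset.sum_congr rfl fun x hx => ?_
      have hxK : x ∈ K := (Set.Finite.mem_toFinset _).1 hx
      rw [h x hxK, finsum_mem_eq_finite_toFinset_sum _ hfin, Finset.sum_mul]
      exact Finset.sum_congr rfl fun θ _ => by ring
    · intro x _ hx
      have hxK : x ∉ K := fun h' => hx ((Set.Finite.mem_toFinset _).2 h')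
      refine Finset.sum_eq_zero fun θ hθ => ?_
      rw [((hB θ (hfin.mem_toFinset.1 hθ)).2.2.2.1 x hxK), zero_mul, mul_zero]
  have h2 : ∀ θ ∈ hfin.toFinset, ∑ x : G, θ x * ξ x⁻¹ = if θ = ξ then (Nat.card K : ℂ) else 0 := by
    intro θ hθ
    have h3 := (hB θ (hfin.mem_toFinset.1 hθ)).2.2.2.2 ξ hξ
    rw [finsum_eq_sum_of_fintype] at h3
    rw [h3]
    split_ifs <;> rfl
  unfold Pool.Agent.FI.mt
  rw [h1, Finset.sum_comm]
  have h4 : ∑ θ ∈ hfin.toFinset, ∑ x : G, c θ * (θ x * ξ x⁻¹) = c ξ * Nat.card K := by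
    rw [Finset.sum_eq_single ξ]
    · rw [← Finset.mul_sum, h2 ξ (hfin.mem_toFinset.2 hξ), if_pos rfl]
    · intro θ hθ hne
      rw [← Finset.mul_sum, h2 θ hθ, if_neg hne, mul_zero]
    · intro hne
      exact absurd (hfin.mem_toFinset.2 hξ) hne
  rw [h4, mul_div_cancel_right₀ _ hcK]

theorem GCL (hIRT : IRT_stmt) (hB9 : B9_stmt) (hCCJ : CCJ_stmt) (hB2 : B2_stmt) : GCL_stmt := by
  classical
  intro p hp G _ _ E hE η hη
  obtain ⟨hle, hno⟩ := GCL_nor E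
  have hcyc := GCL_cyc p hp E hE
  have hinf : nz E ⊓ cz E = cz E := inf_eq_right.2 hle
  obtain ⟨h9, -, -⟩ := hB9 (nz E) ((cz E).subgroupOf (nz E)) hcyc
  obtain ⟨ψ', hψ', hov⟩ := h9 (B10_res (nz E) η) hη.2
  have hres : B10_res (nz E) (B10_ex (nz E) ψ') = ψ' := B10_res_ex (nz E) ψ'
  have hsup : ∀ g, g ∉ nz E → B10_ex (nz E) ψ' g = 0 := B10_ex_supp (nz E) ψ'
  have hψ : B10_ex (nz E) ψ' ∈ IrrOn (cz E) := by
    have h1 := (B10_irrK (nz E) hIRT (cz E) (B10_ex (nz E) ψ') hsup).2 (by rw [hres]; exact hψ')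
    rwa [hinf] at h1
  have hov2 : OverP (cz E) (nz E) η (B10_ex (nz E) ψ') := by
    have h1 := (B10_over (nz E) (cz E) η (B10_ex (nz E) ψ') hsup).2 (by rw [hres]; exact hov)
    rwa [hinf] at h1
  obtain ⟨-, hc2, -, -⟩ := hCCJ G (cz E) (nz E) hno (B10_ex (nz E) ψ') hψ
  have hovE : OverE (cz E) (nz E) η (B10_ex (nz E) ψ') 1 := by
    intro x hx
    rw [hov2 x hx, Nat.cast_one, one_mul]
  have h3 := (hc2 η 1).1 hovE
  have h4 : ∀ ξ ∈ IrrOn (cz E), mt (cz E) η ξ = if ∃ n ∈ nz E, ξ = funMap (MulAut.conj n) (B10_ex (nz E) ψ') then ((1 : ℕ) : ℂ) else 0 :=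
    fun ξ hξ => GCL_mt hB2 (cz E) η ξ hξ (fun θ => if ∃ n ∈ nz E, θ = funMap (MulAut.conj n) (B10_ex (nz E) ψ') then ((1 : ℕ) : ℂ) else 0) h3
  refine ⟨fun ξ hξ => ?_, fun ξ hξ ξ' hξ' h5 h6 => ?_⟩
  · rw [h4 ξ hξ]
    split_ifs
    · exact Or.inr Nat.cast_one
    · exact Or.inl rfl
  · rw [h4 ξ hξ] at h5
    rw [h4 ξ' hξ'] at h6
    have h7 : ∃ n ∈ nz E, ξ = funMap (MulAut.conj n) (B10_ex (nz E) ψ') := by
      by_contra hno2
      exact h5 (if_neg hno2)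
    have h8 : ∃ n ∈ nz E, ξ' = funMap (MulAut.conj n) (B10_ex (nz E) ψ') := by
      by_contra hno2
      exact h6 (if_neg hno2)
    obtain ⟨n, hn, e1⟩ := h7
    obtain ⟨m, hm, e2⟩ := h8
    refine ⟨m * n⁻¹, (nz E).mul_mem hm ((nz E).inv_mem hn), ?_⟩
    rw [e1, e2]
    funext g
    simp [cjF, funMap, mul_assoc]

end Pool.Agent.ND
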